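import Pool.Agent.Helper37.RG3.Goals

set_option autoImplicit false

/-!
MP_0c2bb8_co, packet SNK: a central bag of a tree decomposition of adhesion at most three.
-/

namespace Pool.Agent.Helper62.RG3

open Pool.Agent.Helper37.RG3 Finset

/-- the nodes reachable from `s` without the edge `ts` -/
def side {ι : Type} (T : SimpleGraph ι) (t s : ι) : Set ι :=
  {x | (T.deleteEdges {s(t, s)}).Reachable s x}

section

variable {ι : Type} {T : SimpleGraph ι}

lemma mem_side_self (t s : ι) : s ∈ side T t s := SimpleGraph.Reachable.refl _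

lemma not_mem_side (hT : T.IsTree) {t s : ι} (h : T.Adj t s) : t ∉ side T t s := by
  have h1 := (SimpleGraph.isAcyclic_iff_forall_adj_isBridge.mp hT.isAcyclic) h
  rw [SimpleGraph.isBridge_iff] at h1
  intro h2
  exact h1 h2.symm

/-- the only edge leaving the side -/
lemma side_edge (hT : T.IsTree) {t s : ι} (h : T.Adj t s) {x y : ι} (hx : x ∈ side T t s)
    (hxy : T.Adj x y) (hy : y ∉ side T t s) : x = s ∧ y = t := by
  by_cases he : s(x, y) = s(t, s)
  · rw [Sym2.eq_iff] at he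
    rcases he with ⟨h1, _⟩ | ⟨h1, h2⟩
    · rw [h1] at hx
      exact absurd hx (not_mem_side hT h)
    · exact ⟨h1, h2⟩
  · exfalso
    apply hy
    have h1 : (T.deleteEdges {s(t, s)}).Adj x y := by
      rw [SimpleGraph.deleteEdges_adj]
      exact ⟨hxy, by simpa using he⟩
    exact SimpleGraph.Reachable.trans hx h1.reachable

lemma side_disj (hT : T.IsTree) {t s : ι} (h : T.Adj t s) {x : ι} (hx : x ∈ side T t s) :
    x ∉ side T s t := by
  intro hy
  have h1 := (SimpleGraph.isAcyclic_iff_forall_adj_isBridge.mp hT.isAcyclic) h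
  rw [SimpleGraph.isBridge_iff] at h1
  apply h1
  have h2 : (T.deleteEdges {s(t, s)}).Reachable t x := by
    have h3 : (T.deleteEdges {s(s, t)}).Reachable t x := hy
    rwa [Sym2.eq_swap] at h3
  exact h2.trans (SimpleGraph.Reachable.symm hx)

/-- the first edge of a path -/
lemma exists_side (hT : T.IsTree) {t x : ι} (hx : x ≠ t) : ∃ s, T.Adj t s ∧ x ∈ side T t s := by
  classical
  obtain ⟨p⟩ := hT.connected.preconnected t x
  obtain ⟨q, hq⟩ : ∃ q : T.Walk t x, q.IsPath := ⟨p.toPath.1, p.toPath.2⟩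
  cases q with
  | nil => exact absurd rfl hx
  | cons h q =>
    rename_i s
    refine ⟨s, h, ?_⟩
    rw [SimpleGraph.Walk.cons_isPath_iff] at hq
    have he : s(t, s) ∉ q.edges := fun he => hq.2 (q.fst_mem_support_of_mem_edges he)
    exact (q.toDeleteEdge _ he).reachable

/-- a connected set of nodes meeting both sides contains both ends of the edge -/
lemma cross (hT : T.IsTree) {t s : ι} (h : T.Adj t s) {I : Set ι}
    (hI : (T.induce I).Preconnected) {x y : ι} (hxI : x ∈ I) (hyI : y ∈ I)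
    (hx : x ∈ side T t s) (hy : y ∉ side T t s) : s ∈ I ∧ t ∈ I := by
  obtain ⟨p⟩ := hI ⟨x, hxI⟩ ⟨y, hyI⟩
  obtain ⟨d, _, hd1, hd2⟩ := p.exists_boundary_dart {z : I | (z : ι) ∈ side T t s} hx hy
  have hadj : T.Adj (d.fst : ι) (d.snd : ι) := d.adj
  obtain ⟨h1, h2⟩ := side_edge hT h hd1 hadj hd2
  exact ⟨h1 ▸ d.fst.2, h2 ▸ d.snd.2⟩

end

theorem snk : SNK := by
  classical
  intro V _ _ ι _ T β R U k hR hRU hTD hU hyp
  have hT := hTD.tree
  let K : ι → ι → Finset V := fun t s =>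
    (U.filter fun v => ∃ x ∈ side T t s, v ∈ β x) \ β t
  have memK : ∀ t s v, v ∈ K t s ↔ (v ∈ U ∧ ∃ x ∈ side T t s, v ∈ β x) ∧ v ∉ β t := by
    intro t s v
    simp only [K, mem_sdiff, mem_filter]
  have hcross : ∀ t s, T.Adj t s → ∀ v x y, v ∈ β x → v ∈ β y → x ∈ side T t s →
      y ∉ side T t s → v ∈ β s ∧ v ∈ β t := by
    intro t s h v x y hx hy hxs hys
    exact cross hT h (I := {t | v ∈ β t}) (hTD.conn v) hx hy hxs hys
  have hnb : ∀ t s, T.Adj t s → nb R (K t s) ⊆ β s ∩ β t := by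
    intro t s h u hu
    rw [mem_nb] at hu
    obtain ⟨huK, v, hv, hvu⟩ := hu
    rw [memK] at hv
    obtain ⟨⟨hvU, x, hx, hvx⟩, hvt⟩ := hv
    obtain ⟨t', hvt', hut'⟩ := hTD.edge v u hvu
    have ht' : t' ∈ side T t s := by
      by_contra hc
      exact hvt (hcross t s h v x t' hvx hvt' hx hc).2
    have hut : u ∈ β t := by
      by_contra hc
      exact huK ((memK t s u).2 ⟨⟨(hRU v u hvu).2, t', ht', hut'⟩, hc⟩)
    have := hcross t s h u t' t hut' hut ht' (not_mem_side hT h)
    rw [mem_inter]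
    exact this
  have hedge : ∀ t s, T.Adj t s → ¬ (2 ≤ (K t s).card ∧ 2 ≤ (K s t).card) := by
    rintro t s h ⟨h1, h2⟩
    have hsub : K s t ⊆ U \ (K t s ∪ nb R (K t s)) := by
      intro v hv
      have hv' := (memK s t v).1 hv
      obtain ⟨⟨hvU, x, hx, hvx⟩, hvs⟩ := hv'
      rw [mem_sdiff, mem_union, not_or]
      refine ⟨hvU, fun hK => ?_, fun hn => ?_⟩
      · obtain ⟨⟨_, y, hy, hvy⟩, hvt⟩ := (memK t s v).1 hK
        exact hvs (hcross t s h v y x hvy hvx hy (side_disj hT h.symm hx)).1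
      · have := hnb t s h hn
        rw [mem_inter] at this
        exact hvs this.1
    have h3 : 2 ≤ (U \ (K t s ∪ nb R (K t s))).card := le_trans h2 (card_le_card hsub)
    have h4 := hyp (K t s) (fun v hv => ((memK t s v).1 hv).1.1) h1 h3
    have h5 := card_le_card (hnb t s h)
    have h6 := hTD.adh s t h.symm
    omega
  have hmain : ∃ t, ∀ s, T.Adj t s → (K t s).card ≤ 1 := by
    by_contra hc
    push Not at hc
    choose f hf1 hf2 using hc
    have := Fintype.ofFinite ι
    have hcard := hT.card_edgeFinset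
    have hlt : Fintype.card T.edgeSet < Fintype.card ι := by
      rw [← SimpleGraph.edgeFinset_card]
      omega
    obtain ⟨t, t', hne, he⟩ := Fintype.exists_ne_map_eq_of_card_lt
      (fun t => (⟨s(t, f t), hf1 t⟩ : T.edgeSet)) hlt
    have he' : s(t, f t) = s(t', f t') := congrArg Subtype.val he
    rw [Sym2.eq_iff] at he'
    rcases he' with ⟨h1, _⟩ | ⟨h1, h2⟩
    · exact hne h1
    · have h3 := hf2 t
      have h4 := hf2 t'
      rw [h2] at h3
      rw [← h1] at h4
      have h5 := hf1 t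
      rw [h2] at h5
      exact hedge t t' h5 ⟨h3, h4⟩
  obtain ⟨t, ht⟩ := hmain
  refine ⟨t, ?_⟩
  intro u hu v hv huv hRuv
  rw [mem_sdiff] at hu hv
  obtain ⟨t', hut', hvt'⟩ := hTD.edge u v hRuv
  have hne : t' ≠ t := by
    rintro rfl
    exact hu.2 hut'
  obtain ⟨s, hs, ht's⟩ := exists_side hT hne
  have h1 : u ∈ K t s := (memK t s u).2 ⟨⟨hu.1, t', ht's, hut'⟩, hu.2⟩
  have h2 : v ∈ K t s := (memK t s v).2 ⟨⟨hv.1, t', ht's, hvt'⟩, hv.2⟩
  have h3 := ht s hs
  exact huv (card_le_one.1 h3 u h1 v h2)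

end Pool.Agent.Helper62.RG3
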